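import Mathlib
import Pool.Agent.V1153.SX.LH

/-!
Admissible families on the lines `x + y = n`: a member of degree one prime, the others almost prime.
-/

set_option autoImplicit false

namespace Pool.Agent.Results.MP_0da313_nt.OneLinearPrime

open Polynomial in
/-- the one-variable polynomial `g_n(x) = f(x, n - x)` -/
noncomputable def line (f : MvPolynomial (Fin 2) ℤ) (n : ℕ) : ℤ[X] :=
  MvPolynomial.aeval ![(X : ℤ[X]), C (n : ℤ) - X] f

/-- The family `f` is admissible: for all large `n` the polynomials `g_{k,n}` are irreducible in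
`ℤ[x]`, and no prime divides `∏ k, g_{k,n}(x)` for every integer `x`. -/
def Admissible {m : ℕ} (f : Fin m → MvPolynomial (Fin 2) ℤ) : Prop :=
  ∃ N₀ : ℕ, ∀ n : ℕ, N₀ ≤ n → (∀ k, Irreducible (line (f k) n)) ∧
    ∀ p : ℕ, p.Prime → ∃ x : ℤ, ¬ (p : ℤ) ∣ ∏ k, (line (f k) n).eval x

/-- `v` is not `0` or `±1`, it has at most `R` prime factors, counted with multiplicity, and each
of them is larger than `n ^ (1 / S)`. -/
def AlmostPrime (R S n : ℕ) (v : ℤ) : Prop :=
  2 ≤ |v| ∧ v.natAbs.primeFactorsList.length ≤ R ∧ ∀ p : ℕ, p.Prime → (p : ℤ) ∣ v → n < p ^ S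

open Classical in
/-- There is an absolute constant `C` such that for every admissible family `f_1, …, f_m` with a
member `f_{k₀} = a x + b y + c` of degree one, `D` being the sum of the total degrees, and every
large `n`, for at least `n / (log n) ^ (2 D + 5)` of the pairs `(x, y)` of positive integers with
`x + y = n` the number `|f_{k₀}(x, y)|` is a prime, and every other `f_k(x, y)` is not `0` or `±1`
and has at most `C D deg f_k` prime factors, all of them larger than `n ^ (1 / (C D))`. -/
theorem result : ∃ C : ℕ, ∀ (m : ℕ) (f : Fin m → MvPolynomial (Fin 2) ℤ) (k₀ : Fin m) (a b c : ℤ),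
    Admissible f →
    f k₀ = MvPolynomial.C a * MvPolynomial.X 0 + MvPolynomial.C b * MvPolynomial.X 1 + MvPolynomial.C c →
    ∃ N : ℕ, ∀ n : ℕ, N ≤ n →
      (n : ℝ) / Real.log n ^ (2 * (∑ k, (f k).totalDegree) + 5) ≤
        (((Finset.Icc 1 (n - 1)).filter (fun x : ℕ =>
          (MvPolynomial.eval ![(x : ℤ), (n : ℤ) - x] (f k₀)).natAbs.Prime ∧
          ∀ k, k ≠ k₀ → AlmostPrime (C * (∑ k, (f k).totalDegree) * (f k).totalDegree)
            (C * (∑ k, (f k).totalDegree)) n
            (MvPolynomial.eval ![(x : ℤ), (n : ℤ) - x] (f k)))).card : ℝ) :=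
  Pool.Agent.V1153.SX.one_prime

end Pool.Agent.Results.MP_0da313_nt.OneLinearPrime
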