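import Pool.Agent.V11249.NP.UniG
import Pool.Agent.V1153.SX.Poly

/-!
# Progressions in the representations `n = x + y` with `|f_1(x, y)|, …, |f_m(x, y)|` prime, uniformly in `n` and in
the family

For all families `f_1, …, f_m` of polynomials of degrees at most `d`, all `n` satisfying the two conditions of the
problem and all windows `(A, A + N]`: the set of the `x` in the window for which all the numbers `|f_k(x, n - x)|` are
prime has the expected order of magnitude `N V` if and only if the number of its `k`-term arithmetic progressions with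
differences up to `D` has the expected order of magnitude `N D V ^ k`, for all `D` between a power of `log N` and `N`.
The constants depend only on `m`, `d` and `k`. The same holds for all sets of `x` at which the product of the
polynomials has no prime factor `≤ N ^ κ` (Szemerédi's theorem relative to these sets, and its converse).
-/

set_option autoImplicit false

open Finset

namespace Pool.Agent.Results.MP_0da313_nt.ProgressionsOnLines

open Polynomial in
/-- the one-variable polynomial `g_n(x) = f(x, n - x)` -/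
noncomputable def line (f : MvPolynomial (Fin 2) ℤ) (n : ℕ) : ℤ[X] :=
  MvPolynomial.aeval ![(X : ℤ[X]), C (n : ℤ) - X] f

/-- The conditions 1 and 2 of the problem at `n`: the polynomials `g_{k,n}` are irreducible in `ℤ[x]`, and no prime
divides `∏ k, g_{k,n}(x)` for every integer `x`. -/
def AdmissibleAt {m : ℕ} (f : Fin m → MvPolynomial (Fin 2) ℤ) (n : ℕ) : Prop :=
  (∀ k, Irreducible (line (f k) n)) ∧
    ∀ p : ℕ, p.Prime → ∃ x : ℤ, ¬ (p : ℤ) ∣ ∏ k, (line (f k) n).eval x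

/-- the number `f(x, n - x)` -/
noncomputable def val (f : MvPolynomial (Fin 2) ℤ) (n x : ℕ) : ℤ := MvPolynomial.eval ![(x : ℤ), (n : ℤ) - x] f

open Classical in
/-- the number of the `x` modulo `p` such that `p` divides one of the numbers `f_k(x, n - x)` -/
noncomputable def omega {m : ℕ} (f : Fin m → MvPolynomial (Fin 2) ℤ) (n p : ℕ) : ℕ :=
  ((range p).filter (fun x : ℕ => ∃ k, (p : ℤ) ∣ val (f k) n x)).card

/-- the sieve product over the primes `p ≤ N ^ κ` -/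
noncomputable def V {m : ℕ} (f : Fin m → MvPolynomial (Fin 2) ℤ) (n : ℕ) (κ : ℝ) (N : ℕ) : ℝ :=
  ∏ p ∈ (Icc 1 ⌊(N : ℝ) ^ κ⌋₊).filter Nat.Prime, (1 - (omega f n p : ℝ) / p)

open Classical in
/-- the `x` in `(A, A + N]` for which all the numbers `|f_k(x, n - x)|` are prime -/
noncomputable def P {m : ℕ} (f : Fin m → MvPolynomial (Fin 2) ℤ) (n A N : ℕ) : Finset ℕ :=
  (Ioc A (A + N)).filter (fun x => ∀ k, (val (f k) n x).natAbs.Prime)

/-- all prime factors of the numbers `f_k(x, n - x)` are larger than `N ^ κ` -/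
def Rough {m : ℕ} (f : Fin m → MvPolynomial (Fin 2) ℤ) (n : ℕ) (κ : ℝ) (N x : ℕ) : Prop :=
  ∀ k, ∀ p : ℕ, p.Prime → (p : ℤ) ∣ val (f k) n x → (N : ℝ) ^ κ < p

open Classical in
/-- The number of the progressions `x, x + e, …, x + (k - 1) e` in `S` with `1 ≤ e ≤ D`. -/
noncomputable def AP (k D : ℕ) (S : Finset ℕ) : ℕ :=
  ((S ×ˢ Icc 1 D).filter (fun q => ∀ j < k, q.1 + j * q.2 ∈ S)).card

theorem eval_line (f : MvPolynomial (Fin 2) ℤ) (n x : ℕ) : (line f n).eval (x : ℤ) = val f n x :=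
  Pool.Agent.V1153.SX.eval_line f n x

theorem us {m d : ℕ} {f : Fin m → MvPolynomial (Fin 2) ℤ} {n : ℕ} (h1 : ∀ k, (f k).totalDegree ≤ d)
    (h : AdmissibleAt f n) : Pool.Agent.V11249.NP.UniG.US d (fun k => line (f k) n) := by
  refine ⟨fun k => ⟨Pool.Agent.V1153.SX.natDegree_pos f n h.1 h.2 k,
    (Pool.Agent.V1153.SX.natDegree_line_le (f k) n).trans (h1 k)⟩, fun p hp => ?_⟩
  obtain ⟨x, hx⟩ := h.2 p hp
  have hp0 : (0 : ℤ) < p := by exact_mod_cast hp.pos
  refine ⟨(x % p).toNat, fun k hk => hx ?_⟩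
  have e : (((x % p).toNat : ℕ) : ℤ) = x % p := Int.toNat_of_nonneg (Int.emod_nonneg _ hp0.ne')
  rw [e] at hk
  refine dvd_trans ?_ (dvd_prod_of_mem _ (mem_univ k))
  have h2 : (p : ℤ) ∣ x - x % p := Int.dvd_self_sub_of_emod_eq rfl
  have h3 : (p : ℤ) ∣ (line (f k) n).eval x - (line (f k) n).eval (x % p) :=
    h2.trans (Polynomial.sub_dvd_eval_sub _ _ _)
  have h4 := dvd_add h3 hk
  rwa [sub_add_cancel] at h4

/-- For all `m`, `d` and every `k ≥ 1`, with constants which do not depend on the polynomials `f_1, …, f_m` of degrees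
at most `d`, nor on `n` (satisfying the conditions of the problem), nor on `A`:
(1) for `κ > 0` a set `S` of integers `x` of `(A, A + N]` at which no `f_k(x, n - x)` has a prime factor `≤ N ^ κ`
contains at most `C N D V ^ k` progressions of length `k` with differences at most `D`;
(2) it contains at least `c₀ N D V ^ k` of them if it has at least `δ N V` elements, and it has at least
`c₀ N V` elements if it contains at least `δ N D V ^ k` of them, for all `D` between `log ^ B N` and `N`;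
(3), (4) the same for the set `P f n A N` (with `κ = 1/4` in `V`). -/
theorem result (m d k : ℕ) (hk : 1 ≤ k) :
    (∀ κ : ℝ, 0 < κ → ∃ C : ℝ, 0 < C ∧ ∃ B N₀ : ℕ, ∀ f : Fin m → MvPolynomial (Fin 2) ℤ,
      (∀ i, (f i).totalDegree ≤ d) → ∀ n : ℕ, AdmissibleAt f n → ∀ N A D : ℕ,
      N₀ ≤ N → Real.log N ^ B ≤ D → ∀ S : Finset ℕ, S ⊆ Ioc A (A + N) → (∀ x ∈ S, Rough f n κ N x) →
        (AP k D S : ℝ) ≤ C * (N * D * V f n κ N ^ k)) ∧
    (∀ κ δ : ℝ, 0 < κ → 0 < δ → ∃ c₀ : ℝ, 0 < c₀ ∧ ∃ B N₀ : ℕ, ∀ f : Fin m → MvPolynomial (Fin 2) ℤ,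
      (∀ i, (f i).totalDegree ≤ d) → ∀ n : ℕ, AdmissibleAt f n →
      ∀ N A D : ℕ, N₀ ≤ N → Real.log N ^ B ≤ D → D ≤ N → ∀ S : Finset ℕ, S ⊆ Ioc A (A + N) →
        (∀ x ∈ S, Rough f n κ N x) →
        (δ * (N * V f n κ N) ≤ S.card → c₀ * (N * D * V f n κ N ^ k) ≤ AP k D S) ∧
        (δ * (N * D * V f n κ N ^ k) ≤ AP k D S → c₀ * (N * V f n κ N) ≤ S.card)) ∧
    (∃ C : ℝ, 0 < C ∧ ∃ B N₀ : ℕ, ∀ f : Fin m → MvPolynomial (Fin 2) ℤ,
      (∀ i, (f i).totalDegree ≤ d) → ∀ n : ℕ, AdmissibleAt f n → ∀ N A D : ℕ, N₀ ≤ N →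
      Real.log N ^ B ≤ D → (AP k D (P f n A N) : ℝ) ≤ C * (N * D * V f n (1 / 4) N ^ k)) ∧
    (∀ δ : ℝ, 0 < δ → ∃ c₀ : ℝ, 0 < c₀ ∧ ∃ B N₀ : ℕ, ∀ f : Fin m → MvPolynomial (Fin 2) ℤ,
      (∀ i, (f i).totalDegree ≤ d) → ∀ n : ℕ, AdmissibleAt f n → ∀ N A D : ℕ,
      N₀ ≤ N → Real.log N ^ B ≤ D → D ≤ N →
      (δ * (N * V f n (1 / 4) N) ≤ (P f n A N).card →
        c₀ * (N * D * V f n (1 / 4) N ^ k) ≤ AP k D (P f n A N)) ∧
      (δ * (N * D * V f n (1 / 4) N ^ k) ≤ AP k D (P f n A N) →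
        c₀ * (N * V f n (1 / 4) N) ≤ (P f n A N).card)) := by
  obtain ⟨a1, a2, a3, a4⟩ := Pool.Agent.V11249.NP.UniG.transfer m d
    (Θ := (Fin m → MvPolynomial (Fin 2) ℤ) × ℕ) (fun θ k => line (θ.1 k) θ.2)
    (fun θ => (∀ i, (θ.1 i).totalDegree ≤ d) ∧ AdmissibleAt θ.1 θ.2) (fun θ h => us h.1 h.2)
    (fun θ κ N x => Rough θ.1 θ.2 κ N x) (fun θ A N => P θ.1 θ.2 A N) (fun θ κ N => V θ.1 θ.2 κ N)
    (by
      intro θ _ κ N x h i p hp hd
      refine h i p hp ?_
      have h2 : (p : ℤ) ∣ (line (θ.1 i) θ.2).eval (x : ℤ) := hd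
      rwa [eval_line] at h2)
    (by
      intro θ _ A N x
      unfold P
      rw [mem_filter, mem_Ioc]
      refine and_congr_right fun _ => forall_congr' fun i => ?_
      rw [eval_line])
    (by
      intro θ _ κ N
      refine Pool.Agent.V11249.NP.UniG.V_eq _ κ N _ (fun p _ => ?_)
      unfold omega
      congr 1
      ext x
      rw [Pool.Agent.V11249.NP.UniG.mem_ZZ, mem_filter, mem_range]
      refine and_congr_right fun _ => exists_congr fun i => ?_
      rw [eval_line])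
    k hk
  refine ⟨?_, ?_, ?_, ?_⟩
  · intro κ hκ
    obtain ⟨C, hC, B, N₀, h⟩ := a1 κ hκ
    exact ⟨C, hC, B, N₀, fun f hf n hn N A D hN hD S hS hR => h (f, n) ⟨hf, hn⟩ N A D hN hD S hS hR⟩
  · intro κ δ hκ hδ
    obtain ⟨c₀, hc, B, N₀, h⟩ := a2 κ δ hκ hδ
    exact ⟨c₀, hc, B, N₀, fun f hf n hn N A D hN hD hDN S hS hR => h (f, n) ⟨hf, hn⟩ N A D hN hD hDN S hS hR⟩
  · obtain ⟨C, hC, B, N₀, h⟩ := a3
    exact ⟨C, hC, B, N₀, fun f hf n hn N A D hN hD => h (f, n) ⟨hf, hn⟩ N A D hN hD⟩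
  · intro δ hδ
    obtain ⟨c₀, hc, B, N₀, h⟩ := a4 δ hδ
    exact ⟨c₀, hc, B, N₀, fun f hf n hn N A D hN hD hDN => h (f, n) ⟨hf, hn⟩ N A D hN hD hDN⟩

end Pool.Agent.Results.MP_0da313_nt.ProgressionsOnLines
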