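import Pool.Agent.H225.VL
import Pool.Agent.V1153.SX.Poly

/-!
# Polynomials along the lines `x + y = n`, with restricted digits of `x`

Let `f_1, …, f_m` be non-constant polynomials in two variables with integer coefficients, `D` the sum of
the total degrees.  Let `b ≥ 2` be a base and let the digits of an integer `x < b^K` be restricted: the
`i`-th digit belongs to a set `A i`, where the sets `A i` are arbitrary, depend on the place `i < K`, and
have the only property that the number `∏ |A i|` of these integers is at least `e^{-δK} b^K`, where the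
constant `δ > 0` does not depend on `b`.  (For example one digit may be excluded at every place if `b` is
large; or a positive proportion of the digits may be fixed.)

Let `n` be ANY integer with `b^K ≤ n ≤ b^{EK}` such that the product of the `f_k(x, n - x)` has no fixed
prime divisor, and `V` the sieve product of these polynomials in `x`.  Then `V ≥ κ / K^D`; the number of
the representations `n = x + y`, in which `x` has restricted digits as above and all `|f_k(x, y)|` are
primes (larger than the square root of `x`), is at most `C V ∏ |A i|`; and (if the last digit of `x` can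
be chosen such that all `f_k(x, n - x)` are prime to `b`) there are at least `κ V ∏ |A i|` such
representations in which all `|f_k(x, y)|` have at most `r` prime factors, all larger than `b^{K/r}`.

The method is a Brun–Hooley sieve with weights, whose level of distribution is obtained from the Fourier
transform of the set of the integers with restricted digits at rationals (large sieve in blocks of
digits), see `Pool/Agent/Y816/PD`.
-/

set_option autoImplicit false

namespace Pool.Agent.Results.MP_0da313_nt.RestrictedDigits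

open Finset Filter

/-- The value `f_k(x, n - x)`. -/
noncomputable def val {m : ℕ} (f : Fin m → MvPolynomial (Fin 2) ℤ) (n : ℕ) (k : Fin m) (x : ℤ) : ℤ :=
  MvPolynomial.eval ![x, (n : ℤ) - x] (f k)

/-- No prime divides the product of the `f_k(x, n - x)` for all integers `x`. -/
def NoFixedDivisor {m : ℕ} (f : Fin m → MvPolynomial (Fin 2) ℤ) (n : ℕ) : Prop :=
  ∀ p : ℕ, p.Prime → ∃ x : ℤ, ¬ (p : ℤ) ∣ ∏ k, val f n k x

open Classical in
/-- The number of the `x` modulo `p` for which `p` divides one of the `f_k(x, n - x)`. -/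
noncomputable def nu {m : ℕ} (f : Fin m → MvPolynomial (Fin 2) ℤ) (n p : ℕ) : ℕ :=
  ((range p).filter (fun x : ℕ => ∃ k, (p : ℤ) ∣ val f n k x)).card

/-- The product of `1 - nu p / p` over the primes `p ≤ x`. -/
noncomputable def V {m : ℕ} (f : Fin m → MvPolynomial (Fin 2) ℤ) (n x : ℕ) : ℝ :=
  ∏ p ∈ (Icc 1 x).filter Nat.Prime, (1 - (nu f n p : ℝ) / p)

open Classical in
/-- The number of the `x < b ^ K` in `T` whose `i`-th digit in base `b` belongs to `A i` for all
`i < K`. -/
noncomputable def count (b K : ℕ) (A : ℕ → Finset ℕ) (T : Set ℕ) : ℕ :=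
  ((range (b ^ K)).filter (fun x => (∀ i < K, x / b ^ i % b ∈ A i) ∧ x ∈ T)).card

/-- The number of choices of the digits. -/
noncomputable def choices (K : ℕ) (A : ℕ → Finset ℕ) : ℝ := ∏ i ∈ range K, ((A i).card : ℝ)

/-- `m` has at most `r` prime factors, counted with multiplicity, and all of them are larger than
`z ^ (1 / r)`. -/
def AlmostPrime (r z m : ℕ) : Prop :=
  (∀ p : ℕ, p.Prime → p ∣ m → z < p ^ r) ∧ m.primeFactorsList.length ≤ r

open Pool.Agent.Y816.PD (WG NA ND ND_sub NA_nonneg)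
open Pool.Agent.V1153.SX (line eval_line natDegree_line_le abs_eval_le card_roots_mod dvd_eval_iff)

variable {m : ℕ}

lemma val_line (f : Fin m → MvPolynomial (Fin 2) ℤ) (n : ℕ) (k : Fin m) (x : ℤ) :
    val f n k x = (line (f k) n).eval x := by
  unfold val
  rw [eval_line]

lemma dvd_prod (f : Fin m → MvPolynomial (Fin 2) ℤ) (n : ℕ) (x : ℤ) {p : ℕ} (hp : p.Prime) :
    (p : ℤ) ∣ ∏ k, val f n k x ↔ ∃ k, (p : ℤ) ∣ val f n k x :=
  Pool.Agent.H225.DG.dvd_prod_iff (fun k => val f n k x) hp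

lemma WG_eq (f : Fin m → MvPolynomial (Fin 2) ℤ) (n x : ℕ) :
    WG (fun y => ∏ k, val f n k y) x = V f n x := by
  classical
  unfold WG V nu
  refine prod_congr rfl fun p hp => ?_
  have hpp := (mem_filter.1 hp).2
  have e : (range p).filter (fun y : ℕ => (p : ℤ) ∣ ∏ k, val f n k y) =
      (range p).filter (fun y : ℕ => ∃ k, (p : ℤ) ∣ val f n k y) :=
    filter_congr fun y _ => dvd_prod f n y hpp
  simp only [e]

/-- a good residue class -/
lemma exists_nat {f : Fin m → MvPolynomial (Fin 2) ℤ} {n : ℕ} (h : NoFixedDivisor f n) {p : ℕ}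
    (hp : p.Prime) : ∃ x : ℕ, x < p ∧ ∀ k, ¬ (p : ℤ) ∣ val f n k x := by
  obtain ⟨x, hx⟩ := h p hp
  rw [dvd_prod f n x hp] at hx
  push Not at hx
  have hp0 : (p : ℤ) ≠ 0 := by exact_mod_cast hp.pos.ne'
  have hpos : (0 : ℤ) < p := by exact_mod_cast hp.pos
  have h1 : 0 ≤ x % p := Int.emod_nonneg x hp0
  have h2 : x % p < p := Int.emod_lt_of_pos x hpos
  refine ⟨(x % p).toNat, by omega, fun k hk => hx k ?_⟩
  rw [Int.toNat_of_nonneg h1] at hk
  rw [val_line] at hk ⊢
  have h3 : (p : ℤ) ∣ (line (f k) n).eval x - (line (f k) n).eval (x % p) := by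
    refine dvd_trans ?_ (Polynomial.sub_dvd_eval_sub _ _ _)
    exact Int.dvd_self_sub_emod
  have h4 := dvd_add h3 hk
  rwa [sub_add_cancel] at h4

open Classical in
lemma nu_le {f : Fin m → MvPolynomial (Fin 2) ℤ} {n : ℕ} (h : NoFixedDivisor f n) {p : ℕ}
    (hp : p.Prime) : nu f n p ≤ ∑ k, (f k).totalDegree := by
  obtain ⟨x, -, hx⟩ := exists_nat h hp
  have h1 : (range p).filter (fun y : ℕ => ∃ k, (p : ℤ) ∣ val f n k y) ⊆
      univ.biUnion (fun k : Fin m => (range p).filter (fun y : ℕ => (p : ℤ) ∣ val f n k y)) := by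
    intro y hy
    rw [mem_filter] at hy
    obtain ⟨k, hk⟩ := hy.2
    exact mem_biUnion.2 ⟨k, mem_univ _, mem_filter.2 ⟨hy.1, hk⟩⟩
  unfold nu
  refine (card_le_card h1).trans (card_biUnion_le.trans (sum_le_sum fun k _ => ?_))
  have h2 := card_roots_mod (line (f k) n) p hp (x : ℤ) (by rw [← val_line]; exact hx k)
  refine le_trans ?_ (h2.trans (natDegree_line_le (f k) n))
  refine card_le_card fun y hy => ?_
  rw [mem_filter] at hy ⊢
  rw [← val_line]
  exact hy

open Classical in
lemma nu_lt {f : Fin m → MvPolynomial (Fin 2) ℤ} {n : ℕ} (h : NoFixedDivisor f n) {p : ℕ}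
    (hp : p.Prime) : nu f n p < p := by
  obtain ⟨x, hx, hx'⟩ := exists_nat h hp
  unfold nu
  refine lt_of_lt_of_eq (card_lt_card ?_) (card_range p)
  rw [filter_ssubset]
  exact ⟨x, mem_range.2 hx, fun ⟨k, hk⟩ => hx' k hk⟩

/-- **Polynomials along the lines `x + y = n`, with restricted digits of `x`.** -/
theorem result (m E : ℕ) (hm : 1 ≤ m) (f : Fin m → MvPolynomial (Fin 2) ℤ)
    (hf : ∀ k, 1 ≤ (f k).totalDegree) :
    ∃ δ : ℝ, 0 < δ ∧ ∃ r₀ : ℕ, 2 ≤ r₀ ∧ ∀ r : ℕ, r₀ ≤ r → ∀ b : ℕ, 2 ≤ b →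
      ∃ κ C : ℝ, 0 < κ ∧ 0 < C ∧
      ∀ᶠ K : ℕ in atTop, ∀ n : ℕ, b ^ K ≤ n → n ≤ b ^ (E * K) → NoFixedDivisor f n →
        ∀ A : ℕ → Finset ℕ, (∀ i < K, A i ⊆ range b) →
        (b : ℝ) ^ K ≤ Real.exp (δ * K) * choices K A →
        κ / (K : ℝ) ^ (∑ k, (f k).totalDegree) ≤ V f n (b ^ K) ∧
        ((∃ d ∈ A 0, ∀ k, (val f n k d).natAbs.Coprime b) → (∃ d ∈ A (K - 1), d ≠ 0) →
          κ * choices K A * V f n (b ^ K) ≤ count b K A {x | b ^ (K - 1) ≤ x ∧
            ∀ k, AlmostPrime r (b ^ K) (val f n k x).natAbs}) ∧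
        (count b K A {x | ∀ k, (val f n k x).natAbs.Prime ∧ x < (val f n k x).natAbs ^ 2} : ℝ) ≤
          C * choices K A * V f n (b ^ K) := by
  classical
  obtain ⟨D, hD⟩ : ∃ D, D = ∑ k, (f k).totalDegree := ⟨_, rfl⟩
  have hDk : ∀ k, (f k).totalDegree ≤ D := fun k => by
    rw [hD]
    exact single_le_sum (f := fun k => (f k).totalDegree) (fun _ _ => Nat.zero_le _) (mem_univ k)
  have hD1 : 1 ≤ D := (hf ⟨0, hm⟩).trans (hDk ⟨0, hm⟩)
  obtain ⟨M, hM⟩ : ∃ M : ℕ, ∀ k, ∀ n x : ℕ, 1 ≤ n → x ≤ n →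
      (val f n k x).natAbs ≤ M * n ^ D := by
    choose M hM using fun k => abs_eval_le (f k)
    refine ⟨∑ k, M k, fun k n x hn hx => ?_⟩
    have h1 := hM k n x hn hx
    have h2 : (val f n k x).natAbs ≤ M k * n ^ (f k).totalDegree := by
      unfold val
      zify
      exact h1
    refine h2.trans (Nat.mul_le_mul ?_ (Nat.pow_le_pow_right hn (hDk k)))
    exact single_le_sum (f := M) (fun _ _ => Nat.zero_le _) (mem_univ k)
  rw [← hD]
  obtain ⟨δ, hδ, r₀, hr₀, h⟩ := Pool.Agent.H225.DG.gen m D (1 + E * D) hm hD1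
  refine ⟨δ, hδ, r₀, hr₀, fun r hr b hb => ?_⟩
  obtain ⟨κ, C, hκ, hC, h1⟩ := h r hr b hb
  obtain ⟨v, hv, hW⟩ := Pool.Agent.H225.VL.lower D b hD1 hb
  refine ⟨min κ v, C, lt_min hκ hv, hC, ?_⟩
  filter_upwards [h1, hW, eventually_ge_atTop (M + 1)] with K hK hWK hKM n hn1 hnE hadm A hA hprod
  have hKb : K < b ^ K := Nat.lt_pow_self (by omega)
  have hn0 : 1 ≤ n := by omega
  have hpoly : ∀ k, ∃ P : Polynomial ℤ, P.natDegree ≤ D ∧
      ∀ x : ℕ, P.eval (x : ℤ) = val f n k x := fun k =>
    ⟨line (f k) n, (natDegree_line_le (f k) n).trans (hDk k), fun x => (val_line f n k x).symm⟩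
  have hadm' : ∀ p : ℕ, p.Prime → ∃ x : ℕ, ∀ k, ¬ (p : ℤ) ∣ val f n k x := by
    intro p hp
    obtain ⟨x, -, hx⟩ := exists_nat hadm hp
    exact ⟨x, hx⟩
  have hsize : ∀ x : ℕ, x < b ^ K → ∀ k, (val f n k x).natAbs ≤ b ^ ((1 + E * D) * K) := by
    intro x hx k
    refine (hM k n x hn0 (by omega)).trans ?_
    have e : b ^ ((1 + E * D) * K) = b ^ K * (b ^ (E * K)) ^ D := by
      rw [← pow_mul, ← pow_add]
      congr 1
      ring
    rw [e]
    exact Nat.mul_le_mul (by omega) (Nat.pow_le_pow_left hnE D)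
  obtain ⟨h2, h3⟩ := hK (fun k x => val f n k x) hpoly hadm' hsize A hA hprod
  rw [WG_eq] at h2 h3
  have hVlow : v / (K : ℝ) ^ D ≤ V f n (b ^ K) := by
    rw [← WG_eq]
    have e : ∀ p : ℕ, p.Prime →
        ((range p).filter (fun x : ℕ => (p : ℤ) ∣ ∏ k, val f n k x)).card = nu f n p := by
      intro p hp
      unfold nu
      congr 1
      exact filter_congr fun x _ => dvd_prod f n x hp
    refine hWK _ (fun p hp => ?_) (fun p hp => ?_)
    · have h5 := nu_le hadm hp
      rw [← hD] at h5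
      convert h5
      convert e p hp
    · have h5 := nu_lt hadm hp
      convert h5
      convert e p hp
  have hNA : 0 ≤ choices K A := NA_nonneg K A
  have hV0 : 0 ≤ V f n (b ^ K) := le_trans (by positivity) hVlow
  refine ⟨le_trans ?_ hVlow, ?_, ?_⟩
  · exact div_le_div_of_nonneg_right (min_le_right _ _) (by positivity)
  · intro hcop htop
    refine le_trans ?_ (h2 hcop htop)
    exact mul_le_mul_of_nonneg_right (mul_le_mul_of_nonneg_right (min_le_left _ _) hNA) hV0
  · refine le_trans (Nat.cast_le.2 ?_) h3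
    refine ND_sub fun x _ hx1 hx2 => ⟨hx1, fun k => ⟨(hx2 k).1, (hx2 k).2.trans_le ?_⟩⟩
    exact Nat.pow_le_pow_right (hx2 k).1.pos (by omega)

end Pool.Agent.Results.MP_0da313_nt.RestrictedDigits
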